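import Mathlib

set_option autoImplicit false
open Finset Filter

namespace Pool.Agent.H.MP_268976_an

/-- left end of block j -/
def v (j : ℕ) : ℕ := j ^ 2 + 16 * j
/-- block index -/
def blk (n : ℕ) : ℕ := Nat.sqrt (n + 64) - 8
/-- peak of block j -/
def pk (j : ℕ) : ℕ := v j + j + 8
/-- slowly growing parameter -/
def K (j : ℕ) : ℕ := Nat.sqrt (Nat.sqrt (j + 8))

lemma v_succ (j : ℕ) : v (j + 1) = v j + 2 * j + 17 := by unfold v; ring

lemma v_mono : StrictMono v := strictMono_nat_of_lt_succ fun j => by rw [v_succ]; omega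

lemma blk_eq {j n : ℕ} (h1 : v j ≤ n) (h2 : n < v (j + 1)) : blk n = j := by
  have : j + 8 = Nat.sqrt (n + 64) := by
    rw [Nat.eq_sqrt']
    unfold v at h1 h2
    constructor <;> nlinarith
  unfold blk; omega

lemma blk_spec (n : ℕ) : v (blk n) ≤ n ∧ n < v (blk n + 1) := by
  have h8 : 8 ≤ Nat.sqrt (n + 64) := by rw [Nat.le_sqrt']; omega
  have h1 := Nat.sqrt_le' (n + 64)
  have h2 := Nat.lt_succ_sqrt' (n + 64)
  have e : Nat.sqrt (n + 64) = blk n + 8 := by unfold blk; omega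
  rw [e] at h1 h2
  unfold v
  simp only [Nat.succ_eq_add_one] at h2
  constructor <;> nlinarith

lemma le_v (j : ℕ) : j ≤ v j := by unfold v; omega

lemma blk_le (n : ℕ) : blk n ≤ n := (le_v _).trans (blk_spec n).1

lemma blk_pk (j : ℕ) : blk (pk j) = j := by
  apply blk_eq
  · unfold pk; omega
  · rw [v_succ]; unfold pk; omega

lemma blk_succ (n : ℕ) : blk (n + 1) = blk n ∨ (blk (n + 1) = blk n + 1 ∧ n + 1 = v (blk n + 1)) := by
  obtain ⟨h1, h2⟩ := blk_spec n
  by_cases h : n + 1 < v (blk n + 1)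
  · left; exact blk_eq (by omega) h
  · right
    have e : n + 1 = v (blk n + 1) := by omega
    refine ⟨blk_eq (by omega) ?_, e⟩
    rw [v_succ (blk n + 1)]; omega

lemma le_blk {j n : ℕ} (h : v j ≤ n) : j ≤ blk n := by
  by_contra hc
  have : v (blk n + 1) ≤ v j := v_mono.monotone (by omega)
  have := (blk_spec n).2
  omega

lemma blk_tendsto : Tendsto blk atTop atTop := by
  rw [tendsto_atTop_atTop]
  exact fun j => ⟨v j, fun n hn => le_blk hn⟩

lemma K_pos (j : ℕ) : 1 ≤ K j := by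
  unfold K
  rw [Nat.le_sqrt', Nat.le_sqrt']; omega

lemma K_pow (j : ℕ) : K j ^ 4 ≤ j + 8 := by
  unfold K
  have h1 := Nat.sqrt_le' (Nat.sqrt (j + 8))
  have h2 := Nat.sqrt_le' (j + 8)
  calc Nat.sqrt (Nat.sqrt (j + 8)) ^ 4 = (Nat.sqrt (Nat.sqrt (j + 8)) ^ 2) ^ 2 := by ring
    _ ≤ (Nat.sqrt (j + 8)) ^ 2 := by gcongr
    _ ≤ _ := h2

lemma K_mono : Monotone K := fun _ _ h => by
  unfold K; exact Nat.sqrt_le_sqrt (Nat.sqrt_le_sqrt (by omega))

lemma K_succ (j : ℕ) : K (j + 1) ≤ K j + 1 := by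
  unfold K
  have h1 : Nat.sqrt (j + 1 + 8) ≤ Nat.sqrt (j + 8) + 1 := by
    have := Nat.sqrt_succ_le_succ_sqrt (j + 8)
    simpa [Nat.succ_eq_add_one, add_right_comm] using this
  exact (Nat.sqrt_le_sqrt h1).trans (Nat.sqrt_succ_le_succ_sqrt _)

lemma K_tendsto : Tendsto K atTop atTop := by
  rw [tendsto_atTop_atTop]
  refine fun m => ⟨m ^ 4, fun n hn => ?_⟩
  unfold K
  rw [Nat.le_sqrt', Nat.le_sqrt']
  calc (m ^ 2) ^ 2 = m ^ 4 := by ring
    _ ≤ n + 8 := by omega

/-- real parameter at site n -/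
def κ (n : ℕ) : ℝ := K (blk n)

lemma κ_ge (n : ℕ) : 1 ≤ κ n := by unfold κ; exact_mod_cast K_pos _

lemma κ_succ (n : ℕ) : κ n ≤ κ (n + 1) ∧ κ (n + 1) ≤ κ n + 1 := by
  unfold κ
  rcases blk_succ n with h | ⟨h, _⟩
  · rw [h]; constructor <;> linarith
  · rw [h]
    constructor
    · exact_mod_cast K_mono (Nat.le_succ _)
    · exact_mod_cast K_succ _

lemma κ_tendsto : Tendsto κ atTop atTop :=
  tendsto_natCast_atTop_atTop.comp (K_tendsto.comp blk_tendsto)

def p (n : ℕ) : ℝ := if n < pk (blk n) then κ n + 1 else κ n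
def q (n : ℕ) : ℝ := if n < pk (blk n) then κ n else κ n + 1
def a (n : ℕ) : ℝ := p n * q n
def b (n : ℕ) : ℝ := p n ^ 2 + if n = 0 then 0 else q (n - 1) ^ 2

lemma p_bd (n : ℕ) : κ n ≤ p n ∧ p n ≤ κ n + 1 := by
  unfold p; split_ifs <;> constructor <;> linarith
lemma q_bd (n : ℕ) : κ n ≤ q n ∧ q n ≤ κ n + 1 := by
  unfold q; split_ifs <;> constructor <;> linarith

lemma a_pos (n : ℕ) : 0 < a n := by
  have := κ_ge n; have := p_bd n; have := q_bd n
  unfold a; apply mul_pos <;> linarith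

lemma a_le (n : ℕ) : a n ≤ 2 * (n + 8) := by
  have h1 := κ_ge n
  have h2 : κ n ^ 4 ≤ (n : ℝ) + 8 := by
    unfold κ
    have := (K_pow (blk n)).trans (Nat.add_le_add_right (blk_le n) 8)
    exact_mod_cast this
  have h3 : a n = κ n * (κ n + 1) := by unfold a p q; split_ifs <;> ring
  rw [h3]
  have : κ n ^ 2 ≤ κ n ^ 4 := pow_le_pow_right₀ h1 (by norm_num)
  nlinarith

lemma b_tendsto : Tendsto b atTop atTop := by
  refine tendsto_atTop_mono (fun n => ?_) κ_tendsto
  have := κ_ge n; have := p_bd n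
  unfold b
  split_ifs <;> nlinarith [sq_nonneg (q (n - 1))]

lemma ratio_one {f : ℕ → ℝ} {g : ℕ → ℝ} (hg : Tendsto g atTop atTop) (hg1 : ∀ n, 1 ≤ g n)
    (h : ∀ n, |f n - g n| ≤ 2) : Tendsto (fun n => f n / g n) atTop (nhds 1) := by
  have h0 : Tendsto (fun n => 2 / g n) atTop (nhds 0) := hg.const_div_atTop 2
  rw [tendsto_iff_norm_sub_tendsto_zero]
  refine squeeze_zero (fun n => norm_nonneg _) (fun n => ?_) h0
  have := hg1 n
  have e : f n / g n - 1 = (f n - g n) / g n := by field_simp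
  rw [e, Real.norm_eq_abs, abs_div, abs_of_pos (by linarith : 0 < g n)]
  gcongr
  exact h n

lemma ratio_tendsto :
    Tendsto (fun n => a n ^ 2 / (b n * b (n + 1))) atTop (nhds (1 / 4 : ℝ)) := by
  rw [← tendsto_add_atTop_iff_nat 1]
  have hg : Tendsto (fun n => κ (n + 1)) atTop atTop := (tendsto_add_atTop_iff_nat 1).2 κ_tendsto
  have hg1 : ∀ n, 1 ≤ κ (n + 1) := fun n => κ_ge _
  have t1 := ratio_one (f := fun n => p (n + 1)) hg hg1 (fun n => by
    have := p_bd (n + 1); rw [abs_le]; constructor <;> linarith)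
  have t2 := ratio_one (f := fun n => q (n + 1)) hg hg1 (fun n => by
    have := q_bd (n + 1); rw [abs_le]; constructor <;> linarith)
  have t3 := ratio_one (f := fun n => q n) hg hg1 (fun n => by
    have := q_bd n; have := κ_succ n; rw [abs_le]; constructor <;> linarith)
  have t4 := ratio_one (f := fun n => p (n + 2)) hg hg1 (fun n => by
    have := p_bd (n + 2); have := κ_succ (n + 1); rw [abs_le]; constructor <;> linarith)
  have := ((t1.mul t2).pow 2).div (((t1.pow 2).add (t3.pow 2)).mul ((t4.pow 2).add (t2.pow 2)))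
    (by norm_num)
  have e : ((1 : ℝ) * 1) ^ 2 / ((1 ^ 2 + 1 ^ 2) * (1 ^ 2 + 1 ^ 2)) = 1 / 4 := by norm_num
  rw [e] at this
  refine this.congr fun n => ?_
  have h1 := hg1 n
  have h2 := p_bd (n + 1)
  have h3 := p_bd (n + 2)
  have h4 : 0 < p (n + 1) ^ 2 + q n ^ 2 := by
    have : 0 < p (n + 1) := by linarith
    positivity
  have h5 : 0 < p (n + 2) ^ 2 + q (n + 1) ^ 2 := by
    have := κ_ge (n + 2)
    have : 0 < p (n + 2) := by linarith
    positivity
  simp only [a, b, Pi.div_apply, Nat.add_eq_zero_iff, one_ne_zero, and_false, if_false,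
    Nat.add_sub_cancel]
  have h6 : κ (n + 1) ≠ 0 := by linarith
  field_simp

lemma deficiency (u : ℕ → ℂ) (hu : Summable fun k => ‖u k‖ ^ 2)
    (h : ∀ k : ℕ, (if k = 0 then (0 : ℂ) else (a (k - 1) : ℂ) * u (k - 1))
            + (b k : ℂ) * u k + (a k : ℂ) * u (k + 1) = Complex.I * u k) : u = 0 := by
  have key : ∀ N, ∑ k ∈ range (N + 1), ‖u k‖ ^ 2 =
      a N * ((u (N + 1)).im * (u N).re - (u (N + 1)).re * (u N).im) := by
    intro N
    induction N with
    | zero =>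
      have h0 := h 0
      have h1 := congrArg Complex.re h0
      have h2 := congrArg Complex.im h0
      simp at h1 h2
      simp only [zero_add, range_one, sum_singleton, Complex.sq_norm, Complex.normSq_apply]
      linear_combination (u 0).im * h1 - (u 0).re * h2
    | succ N ih =>
      have h0 := h (N + 1)
      have h1 := congrArg Complex.re h0
      have h2 := congrArg Complex.im h0
      simp at h1 h2
      rw [sum_range_succ, ih]
      simp only [Complex.sq_norm, Complex.normSq_apply]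
      linear_combination (u (N + 1)).im * h1 - (u (N + 1)).re * h2
  by_contra hne
  obtain ⟨k0, hk0⟩ : ∃ k0, u k0 ≠ 0 := by
    by_contra hc
    push Not at hc
    exact hne (funext hc)
  have hc : 0 < ‖u k0‖ ^ 2 := by positivity
  have hs : Summable fun N => ‖u (N + k0)‖ ^ 2 + ‖u (N + k0 + 1)‖ ^ 2 :=
    ((summable_nat_add_iff k0).2 hu).add ((summable_nat_add_iff (k0 + 1)).2 hu)
  have hs2 : Summable fun N : ℕ => ‖u k0‖ ^ 2 * (((N + (k0 + 8) : ℕ) : ℝ))⁻¹ := by
    refine Summable.of_nonneg_of_le (fun N => by positivity) (fun N => ?_) hs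
    have h1 : ‖u k0‖ ^ 2 ≤ ∑ k ∈ range (N + k0 + 1), ‖u k‖ ^ 2 :=
      single_le_sum (f := fun k => ‖u k‖ ^ 2) (fun _ _ => by positivity) (by simp)
    rw [key] at h1
    have h2 := a_le (N + k0)
    have h3 := a_pos (N + k0)
    have h4 : 2 * ((u (N + k0 + 1)).im * (u (N + k0)).re - (u (N + k0 + 1)).re * (u (N + k0)).im)
        ≤ ‖u (N + k0)‖ ^ 2 + ‖u (N + k0 + 1)‖ ^ 2 := by
      simp only [Complex.sq_norm, Complex.normSq_apply]
      nlinarith [sq_nonneg ((u (N + k0 + 1)).im - (u (N + k0)).re),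
        sq_nonneg ((u (N + k0 + 1)).re + (u (N + k0)).im)]
    rw [← div_eq_mul_inv, div_le_iff₀ (by positivity)]
    have h5 : 0 ≤ ‖u (N + k0)‖ ^ 2 + ‖u (N + k0 + 1)‖ ^ 2 := by positivity
    push_cast at h2 ⊢
    nlinarith
  have hs3 := (summable_mul_left_iff hc.ne').1 hs2
  exact Real.not_summable_natCast_inv
    ((summable_nat_add_iff (f := fun n : ℕ => (n : ℝ)⁻¹) (k0 + 8)).1 hs3)

end Pool.Agent.H.MP_268976_an
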