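import Pool.Agent.H.MP_268976_an.A

set_option autoImplicit false
open Finset Filter

namespace Pool.Agent.H.MP_268976_an

/-- first order factor -/
def L (u : ℕ → ℝ) (n : ℕ) : ℝ := p n * u n + q n * u (n + 1)
/-- the Jacobi matrix -/
def C (u : ℕ → ℝ) (k : ℕ) : ℝ :=
  (if k = 0 then 0 else a (k - 1) * u (k - 1)) + b k * u k + a k * u (k + 1)

lemma C_eq (u : ℕ → ℝ) (k : ℕ) :
    C u k = p k * L u k + if k = 0 then 0 else q (k - 1) * L u (k - 1) := by
  unfold C L a b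
  rcases k with _ | k
  · simp; ring
  · simp; ring

lemma green (u w : ℕ → ℝ) (N : ℕ) :
    ∑ k ∈ range (N + 1), C u k * w k = ∑ k ∈ range N, L u k * L w k + p N * L u N * w N := by
  induction N with
  | zero => simp [C_eq]
  | succ N ih =>
    rw [sum_range_succ, ih, sum_range_succ, C_eq]
    simp only [Nat.add_eq_zero_iff, one_ne_zero, and_false, if_false, Nat.add_sub_cancel]
    have : L w N = p N * w N + q N * w (N + 1) := rfl
    rw [this]; ring

/-- lower bound for vectors vanishing at the peaks -/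
lemma lower (x : ℕ → ℝ) (hx : ∀ j, x (pk j) = 0) (N : ℕ) :
    ∑ k ∈ range (N + 1), x k ^ 2 - p N * (p N - q N) * x N ^ 2 ≤ ∑ k ∈ range N, L x k ^ 2 := by
  induction N with
  | zero =>
    have h0 : blk 0 = 0 := blk_eq (by simp [v]) (by simp [v])
    have : (0 : ℕ) < pk (blk 0) := by unfold pk; omega
    have h1 := κ_ge 0
    simp only [zero_add, range_one, sum_singleton, range_zero, sum_empty, p, q, this, if_true]
    nlinarith [sq_nonneg (x 0)]
  | succ N ih =>
    rw [sum_range_succ, sum_range_succ (fun k => L x k ^ 2)]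
    have h1 : p N * (p N - q N) * x N ^ 2 + q N * (q N - p N) * x (N + 1) ^ 2 ≤ L x N ^ 2 := by
      unfold L
      have := a_pos N
      unfold a at this
      nlinarith [mul_nonneg this.le (sq_nonneg (x N + x (N + 1)))]
    have h2 : x (N + 1) ^ 2 ≤
        (p (N + 1) * (p (N + 1) - q (N + 1)) + q N * (q N - p N)) * x (N + 1) ^ 2 := by
      by_cases hp : N + 1 = pk (blk (N + 1))
      · have : x (N + 1) = 0 := by rw [hp]; exact hx _
        rw [this]; simp
      · have h3 : 1 ≤ p (N + 1) * (p (N + 1) - q (N + 1)) + q N * (q N - p N) := by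
          have hk := κ_succ N
          have hk1 := κ_ge N
          rcases blk_succ N with h | ⟨h, h'⟩
          · have hκ : κ (N + 1) = κ N := by unfold κ; rw [h]
            unfold p q
            rw [h] at hp
            rw [h, hκ]
            split_ifs with c1 c2 c2
            · nlinarith
            · omega
            · omega
            · nlinarith
          · have c1 : N + 1 < pk (blk (N + 1)) := by rw [h]; unfold pk; omega
            unfold p q
            simp only [c1, if_true]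
            split_ifs <;> nlinarith [hk.1]
        nlinarith [sq_nonneg (x (N + 1))]
    linarith

/-- contraction ratio in block j -/
noncomputable def r (j : ℕ) : ℝ := K j / (K j + 1)

/-- profile of the approximate null vectors -/
noncomputable def φ (n : ℕ) : ℝ :=
  if n = v (blk n) then 0 else
    if n ≤ pk (blk n) then (-r (blk n)) ^ (pk (blk n) - n) else (-r (blk n)) ^ (n - pk (blk n))

lemma φ_pk (j : ℕ) : φ (pk j) = 1 := by
  unfold φ
  rw [blk_pk]
  have : pk j ≠ v j := by unfold pk; omega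
  simp [this]

lemma φ_v (j : ℕ) : φ (v j) = 0 := by
  unfold φ
  have : blk (v j) = j := blk_eq le_rfl (by rw [v_succ]; omega)
  simp [this]

lemma r_pow (j m : ℕ) (hm : j + 7 ≤ m) : ((K j : ℝ) * (-r j) ^ m) ^ 2 ≤ (K j) ^ 4 / (j + 8) ^ 2 := by
  have hK : (1 : ℝ) ≤ K j := by exact_mod_cast K_pos j
  have hr0 : 0 < r j := by unfold r; positivity
  have hb : 1 + (m : ℝ) * (1 / K j) ≤ (1 + 1 / (K j : ℝ)) ^ m :=
    one_add_mul_le_pow (by have : 0 < 1 / (K j : ℝ) := by positivity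
                           linarith) m
  have hm' : (j : ℝ) + 7 ≤ m := by exact_mod_cast hm
  have h1 : r j * (1 + 1 / (K j : ℝ)) = 1 := by unfold r; field_simp
  have h2 : r j ^ m * (1 + 1 / (K j : ℝ)) ^ m = 1 := by rw [← mul_pow, h1, one_pow]
  have h3 : r j ^ m * (j + 8) ≤ K j := by
    have h4 : r j ^ m * (1 + (m : ℝ) * (1 / K j)) ≤ 1 := by
      calc _ ≤ r j ^ m * (1 + 1 / (K j : ℝ)) ^ m := by gcongr
        _ = 1 := h2
    have h5 : (j : ℝ) + 8 ≤ K j * (1 + (m : ℝ) * (1 / K j)) := by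
      have : (K j : ℝ) * (1 + (m : ℝ) * (1 / K j)) = K j + m := by field_simp
      rw [this]; linarith
    have h6 : 0 < r j ^ m := by positivity
    calc r j ^ m * (j + 8) ≤ r j ^ m * (K j * (1 + (m : ℝ) * (1 / K j))) := by gcongr
      _ = K j * (r j ^ m * (1 + (m : ℝ) * (1 / K j))) := by ring
      _ ≤ K j * 1 := by gcongr
      _ = K j := by ring
  have h7 : ((-r j) ^ m) ^ 2 = (r j ^ m) ^ 2 := by
    rw [← pow_mul, ← pow_mul, mul_comm m 2, pow_mul, pow_mul, neg_sq]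
  rw [mul_pow, h7, le_div_iff₀ (by positivity)]
  have h8 : (r j ^ m * (j + 8)) ^ 2 ≤ (K j : ℝ) ^ 2 := by gcongr
  calc (K j : ℝ) ^ 2 * (r j ^ m) ^ 2 * (j + 8) ^ 2 = (K j : ℝ) ^ 2 * (r j ^ m * (j + 8)) ^ 2 := by
        ring
    _ ≤ (K j : ℝ) ^ 2 * (K j : ℝ) ^ 2 := by gcongr
    _ = _ := by ring

lemma Lφ_mid {j n : ℕ} (h1 : v j < n) (h2 : n + 1 < v (j + 1)) : L φ n = 0 := by
  have e1 : blk n = j := blk_eq h1.le (by omega)
  have e2 : blk (n + 1) = j := blk_eq (by omega) h2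
  have hK : (1 : ℝ) ≤ K j := by exact_mod_cast K_pos j
  unfold L φ p q κ
  rw [e1, e2]
  have c1 : n ≠ v j := by omega
  have c2 : n + 1 ≠ v j := by omega
  simp only [c1, c2, if_false]
  by_cases c : n < pk j
  · have c3 : n ≤ pk j := c.le
    have c4 : n + 1 ≤ pk j := c
    simp only [c, c3, c4, if_true]
    have : pk j - n = (pk j - (n + 1)) + 1 := by omega
    rw [this, pow_succ]
    unfold r; field_simp; ring
  · have c4 : ¬ (n + 1 ≤ pk j) := by omega
    simp only [c, c4, if_false]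
    have e3 : (if n ≤ pk j then (-r j) ^ (pk j - n) else (-r j) ^ (n - pk j))
        = (-r j) ^ (n - pk j) := by
      split_ifs with c5
      · have : n = pk j := by omega
        rw [this]
      · rfl
    have : n + 1 - pk j = (n - pk j) + 1 := by omega
    rw [e3, this, pow_succ]
    unfold r; field_simp; ring

lemma Lφ_left (j : ℕ) : L φ (v j) ^ 2 ≤ (K j) ^ 4 / (j + 8) ^ 2 := by
  have e1 : blk (v j) = j := blk_eq le_rfl (by rw [v_succ]; omega)
  have e2 : blk (v j + 1) = j := blk_eq (by omega) (by rw [v_succ]; omega)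
  have c : v j < pk j := by unfold pk; omega
  have c4 : v j + 1 ≤ pk j := c
  have : L φ (v j) = K j * (-r j) ^ (pk j - (v j + 1)) := by
    unfold L
    rw [φ_v]
    unfold φ q κ
    rw [e1, e2]
    simp [c, c4]
  rw [this]
  exact r_pow j _ (by unfold pk; omega)

lemma Lφ_right {j n : ℕ} (h : n + 1 = v (j + 1)) : L φ n ^ 2 ≤ (K j) ^ 4 / (j + 8) ^ 2 := by
  have hv := v_succ j
  have e1 : blk n = j := blk_eq (by omega) (by omega)
  have c : ¬ n < pk j := by unfold pk; omega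
  have c4 : ¬ n ≤ pk j := by unfold pk; omega
  have c5 : n ≠ v j := by omega
  have : L φ n = K j * (-r j) ^ (n - pk j) := by
    unfold L
    rw [h, φ_v]
    unfold φ p κ
    rw [e1]
    simp [c, c4, c5]
  rw [this]
  exact r_pow j _ (by unfold pk; omega)

/-- vectors built from the profile -/
def IsY (y : ℕ → ℝ) : Prop := ∀ m, y m = y (pk (blk m)) * φ m

lemma L_Y {y : ℕ → ℝ} (hy : IsY y) (n : ℕ) : L y n = y (pk (blk n)) * L φ n := by
  unfold L
  rcases blk_succ n with h | ⟨h, h'⟩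
  · have h1 := hy n
    have h2 := hy (n + 1)
    rw [h] at h2
    rw [h1, h2]; ring
  · have h1 := hy n
    have h2 := hy (n + 1)
    have h3 : φ (n + 1) = 0 := by rw [h', φ_v]
    rw [h3] at h2 ⊢
    rw [h1, h2]; ring

lemma block_bd {y : ℕ → ℝ} (hy : IsY y) (j : ℕ) :
    ∑ k ∈ Ico (v j) (v (j + 1)), L y k ^ 2 ≤
      2 * ((K j) ^ 4 / (j + 8) ^ 2) * ∑ k ∈ Ico (v j) (v (j + 1)), y k ^ 2 := by
  have hv := v_succ j
  have h1 : y (pk j) ^ 2 ≤ ∑ k ∈ Ico (v j) (v (j + 1)), y k ^ 2 :=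
    single_le_sum (f := fun k => y k ^ 2) (fun _ _ => by positivity)
      (by rw [mem_Ico]; unfold pk; omega)
  have h2 : ∑ k ∈ Ico (v j) (v (j + 1)), L y k ^ 2 =
      ∑ k ∈ ({v j, v j + 2 * j + 16} : Finset ℕ), L y k ^ 2 := by
    symm
    apply sum_subset
    · intro k hk
      simp only [mem_insert, mem_singleton] at hk
      rw [mem_Ico]; omega
    · intro k hk hk'
      simp only [mem_insert, mem_singleton, not_or] at hk'
      rw [mem_Ico] at hk
      rw [L_Y hy, Lφ_mid (j := j) (by omega) (by omega)]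
      simp
  rw [h2, sum_pair (by omega), L_Y hy, L_Y hy]
  have e1 : blk (v j) = j := blk_eq le_rfl (by omega)
  have e2 : blk (v j + 2 * j + 16) = j := blk_eq (by omega) (by omega)
  rw [e1, e2, mul_pow, mul_pow]
  have b1 := Lφ_left j
  have b2 := Lφ_right (j := j) (n := v j + 2 * j + 16) (by omega)
  have hc : (0 : ℝ) ≤ (K j) ^ 4 / (j + 8) ^ 2 := by positivity
  have h3 := sq_nonneg (y (pk j))
  nlinarith [mul_le_mul_of_nonneg_left b1 h3, mul_le_mul_of_nonneg_left b2 h3,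
    mul_le_mul_of_nonneg_left h1 hc]

lemma sum_blocks {F G : ℕ → ℝ}
    (h : ∀ j, ∑ k ∈ Ico (v j) (v (j + 1)), F k ≤ ∑ k ∈ Ico (v j) (v (j + 1)), G k) (S : ℕ) :
    ∑ k ∈ range (v S), F k ≤ ∑ k ∈ range (v S), G k := by
  induction S with
  | zero => simp [v]
  | succ S ih =>
    have hle : v S ≤ v (S + 1) := v_mono.monotone (Nat.le_succ _)
    rw [← sum_range_add_sum_Ico F hle, ← sum_range_add_sum_Ico G hle]
    linarith [h S]

lemma upperY {y : ℕ → ℝ} (hy : IsY y) (S : ℕ) :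
    ∑ k ∈ range (v S), L y k ^ 2 ≤ (1 / 4) * ∑ k ∈ range (v S), y k ^ 2 := by
  rw [mul_sum]
  apply sum_blocks
  intro j
  rw [← mul_sum]
  refine (block_bd hy j).trans ?_
  have h1 : ((K j : ℝ)) ^ 4 ≤ j + 8 := by exact_mod_cast K_pow j
  have h2 : ((K j : ℝ)) ^ 4 / (j + 8) ^ 2 ≤ 1 / 8 := by
    rw [div_le_div_iff₀ (by positivity) (by norm_num)]
    have : (0 : ℝ) ≤ j := by positivity
    nlinarith
  have h3 : 0 ≤ ∑ k ∈ Ico (v j) (v (j + 1)), y k ^ 2 := sum_nonneg fun _ _ => by positivity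
  nlinarith

lemma upperY2 {y : ℕ → ℝ} (hy : IsY y) (j0 : ℕ) (h0 : ∀ m, blk m < j0 → y m = 0) (S : ℕ) :
    ∑ k ∈ range (v S), (κ k + 1) ^ 2 * L y k ^ 2 ≤
      (8 / (K j0) ^ 2) * ∑ k ∈ range (v S), y k ^ 2 := by
  rw [mul_sum]
  apply sum_blocks
  intro j
  rw [← mul_sum]
  have h3 : 0 ≤ ∑ k ∈ Ico (v j) (v (j + 1)), y k ^ 2 := sum_nonneg fun _ _ => by positivity
  have e : ∑ k ∈ Ico (v j) (v (j + 1)), (κ k + 1) ^ 2 * L y k ^ 2 =
      ((K j : ℝ) + 1) ^ 2 * ∑ k ∈ Ico (v j) (v (j + 1)), L y k ^ 2 := by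
    rw [mul_sum]
    refine sum_congr rfl fun k hk => ?_
    rw [mem_Ico] at hk
    unfold κ
    rw [blk_eq hk.1 hk.2]
  rw [e]
  by_cases hj : j < j0
  · have : ∑ k ∈ Ico (v j) (v (j + 1)), L y k ^ 2 = 0 := by
      refine sum_eq_zero fun k hk => ?_
      rw [mem_Ico] at hk
      rw [L_Y hy, h0 _ (by rw [blk_pk, blk_eq hk.1 hk.2]; exact hj)]
      simp
    rw [this]
    simp only [mul_zero]
    positivity
  · have hK : (1 : ℝ) ≤ K j0 := by exact_mod_cast K_pos j0
    have hK2 : (K j0 : ℝ) ≤ K j := by exact_mod_cast K_mono (not_lt.1 hj)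
    have h1 : ((K j : ℝ)) ^ 4 ≤ j + 8 := by exact_mod_cast K_pow j
    have h2 : ((K j : ℝ) + 1) ^ 2 * (2 * ((K j) ^ 4 / (j + 8) ^ 2)) ≤ 8 / (K j0) ^ 2 := by
      have h4 : ((K j : ℝ)) ^ 4 / (j + 8) ^ 2 ≤ (K j) ^ 4 / ((K j) ^ 4) ^ 2 := by
        have : (0 : ℝ) < K j := by linarith
        gcongr
      have h5 : ((K j : ℝ) + 1) ^ 2 ≤ (2 * K j) ^ 2 := by gcongr; linarith
      have h6 : (0 : ℝ) < K j := by linarith
      calc ((K j : ℝ) + 1) ^ 2 * (2 * ((K j) ^ 4 / (j + 8) ^ 2))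
          ≤ (2 * (K j : ℝ)) ^ 2 * (2 * ((K j : ℝ) ^ 4 / ((K j : ℝ) ^ 4) ^ 2)) := by gcongr
        _ = 8 / (K j : ℝ) ^ 2 := by field_simp; ring
        _ ≤ 8 / (K j0 : ℝ) ^ 2 := by gcongr
    calc ((K j : ℝ) + 1) ^ 2 * ∑ k ∈ Ico (v j) (v (j + 1)), L y k ^ 2
        ≤ ((K j : ℝ) + 1) ^ 2 * (2 * ((K j) ^ 4 / (j + 8) ^ 2) *
            ∑ k ∈ Ico (v j) (v (j + 1)), y k ^ 2) := by
          gcongr; exact block_bd hy j
      _ = (((K j : ℝ) + 1) ^ 2 * (2 * ((K j) ^ 4 / (j + 8) ^ 2))) *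
            ∑ k ∈ Ico (v j) (v (j + 1)), y k ^ 2 := by ring
      _ ≤ _ := by gcongr

/-- approximate null vectors -/
lemma small {y : ℕ → ℝ} (hy : IsY y) (j0 : ℕ) (h0 : ∀ m, blk m < j0 → y m = 0) (S : ℕ)
    (hS : ∀ m, v S ≤ m → y m = 0) :
    ∑ k ∈ range (v S + 1), C y k ^ 2 ≤ (32 / (K j0) ^ 2) * ∑ k ∈ range (v S + 1), y k ^ 2 := by
  have h1 : ∀ N, ∑ k ∈ range (N + 1), C y k ^ 2 ≤
      4 * ∑ k ∈ range N, (κ k + 1) ^ 2 * L y k ^ 2 + 2 * ((κ N + 1) ^ 2 * L y N ^ 2) := by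
    have hp : ∀ n, (p n * L y n) ^ 2 ≤ (κ n + 1) ^ 2 * L y n ^ 2 := fun n => by
      have := p_bd n; have := κ_ge n
      rw [mul_pow]; gcongr
      · linarith
      · linarith
    have hq : ∀ n, (q n * L y n) ^ 2 ≤ (κ n + 1) ^ 2 * L y n ^ 2 := fun n => by
      have := q_bd n; have := κ_ge n
      rw [mul_pow]; gcongr
      · linarith
      · linarith
    intro N
    induction N with
    | zero =>
      simp only [zero_add, range_one, sum_singleton, C_eq, if_true, add_zero, range_zero,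
        sum_empty, mul_zero]
      nlinarith [hp 0, sq_nonneg (p 0 * L y 0)]
    | succ N ih =>
      rw [sum_range_succ, sum_range_succ (fun k => (κ k + 1) ^ 2 * L y k ^ 2), C_eq]
      simp only [Nat.add_eq_zero_iff, one_ne_zero, and_false, if_false, Nat.add_sub_cancel]
      nlinarith [hp (N + 1), hq N, sq_nonneg (p (N + 1) * L y (N + 1) - q N * L y N)]
  have h2 : L y (v S) = 0 := by unfold L; rw [hS _ le_rfl, hS _ (Nat.le_succ _)]; simp
  have h3 := h1 (v S)
  rw [h2] at h3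
  have h4 := upperY2 hy j0 h0 S
  rw [sum_range_succ (fun k => y k ^ 2), hS _ le_rfl]
  have e : (32 : ℝ) / (K j0) ^ 2 = 4 * (8 / (K j0) ^ 2) := by ring
  rw [e]
  nlinarith

/-- no spectrum below zero -/
lemma neg_bd (z : ℕ → ℝ) (N : ℕ) (hN : z N = 0) (t : ℝ) (ht : t < 0) :
    t ^ 2 * ∑ k ∈ range (N + 1), z k ^ 2 ≤ ∑ k ∈ range (N + 1), (C z k - t * z k) ^ 2 := by
  have hg := green z z N
  rw [hN] at hg
  have h1 : 0 ≤ ∑ k ∈ range N, L z k * L z k := sum_nonneg fun _ _ => mul_self_nonneg _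
  have h2 : ∑ k ∈ range (N + 1), (C z k - t * z k) ^ 2 =
      ∑ k ∈ range (N + 1), C z k ^ 2 - 2 * t * ∑ k ∈ range (N + 1), C z k * z k
        + t ^ 2 * ∑ k ∈ range (N + 1), z k ^ 2 := by
    rw [mul_sum, mul_sum, ← sum_sub_distrib, ← sum_add_distrib]
    exact sum_congr rfl fun k _ => by ring
  have h3 : 0 ≤ ∑ k ∈ range (N + 1), C z k ^ 2 := sum_nonneg fun _ _ => by positivity
  rw [h2, hg]
  nlinarith

/-- the gap at one half -/
lemma gap (z : ℕ → ℝ) (S : ℕ) (hS : ∀ m, v S ≤ m → z m = 0) :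
    (1 / 64) * ∑ k ∈ range (v S + 1), z k ^ 2 ≤
      ∑ k ∈ range (v S + 1), (C z k - (1 / 2) * z k) ^ 2 := by
  set y : ℕ → ℝ := fun m => z (pk (blk m)) * φ m with hy
  set x : ℕ → ℝ := fun m => z m - y m with hx
  have hY : IsY y := fun m => by simp only [hy, blk_pk, φ_pk, mul_one]
  have hX : ∀ j, x (pk j) = 0 := fun j => by simp only [hx, hy, blk_pk, φ_pk, mul_one, sub_self]
  have hyN : y (v S) = 0 := by simp only [hy, φ_v, mul_zero]
  have hxN : x (v S) = 0 := by simp only [hx, hyN, hS _ le_rfl, sub_self]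
  have hl := lower x hX (v S)
  rw [hxN] at hl
  have hu := upperY hY S
  have hg := green z (fun m => x m - y m) (v S)
  simp only [hxN, hyN, sub_self, mul_zero, add_zero] at hg
  have e1 : ∑ k ∈ range (v S), L z k * L (fun m => x m - y m) k =
      ∑ k ∈ range (v S), L x k ^ 2 - ∑ k ∈ range (v S), L y k ^ 2 := by
    rw [← sum_sub_distrib]
    refine sum_congr rfl fun k _ => ?_
    simp only [L, hx]; ring
  have e2 : ∑ k ∈ range (v S + 1), y k ^ 2 = ∑ k ∈ range (v S), y k ^ 2 := by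
    rw [sum_range_succ, hyN]; simp
  have h1 : ∑ k ∈ range (v S + 1), C z k * (x k - y k) ≤
      4 * ∑ k ∈ range (v S + 1), (C z k - (1 / 2) * z k) ^ 2 +
        (5 / 8) * ∑ k ∈ range (v S + 1), x k ^ 2 - (3 / 8) * ∑ k ∈ range (v S + 1), y k ^ 2 := by
    rw [mul_sum, mul_sum, mul_sum, ← sum_add_distrib, ← sum_sub_distrib]
    refine sum_le_sum fun k _ => ?_
    have : z k = x k + y k := by simp only [hx]; ring
    rw [this]
    nlinarith [sq_nonneg (2 * (C z k - (1 / 2) * (x k + y k)) - (x k - y k) / 4),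
      sq_nonneg (x k + y k)]
  have h2 : ∑ k ∈ range (v S + 1), z k ^ 2 ≤
      2 * ∑ k ∈ range (v S + 1), x k ^ 2 + 2 * ∑ k ∈ range (v S + 1), y k ^ 2 := by
    rw [mul_sum, mul_sum, ← sum_add_distrib]
    refine sum_le_sum fun k _ => ?_
    have : z k = x k + y k := by simp only [hx]; ring
    rw [this]
    nlinarith [sq_nonneg (x k - y k)]
  have h3 : 0 ≤ ∑ k ∈ range (v S + 1), x k ^ 2 := sum_nonneg fun _ _ => by positivity
  rw [e2] at h1 h2
  rw [hg, e1] at h1
  linarith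

end Pool.Agent.H.MP_268976_an
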